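import Pool.Agent.V11210.NG.Fin

/-!
# The sums of Nagao in logarithmic mean, and the Riemann hypothesis (helper210)

`E : y² = x³ + a x + b` is an elliptic curve over `ℚ`, `N_p` the number of its points modulo `p`, `a_p = p + 1 - N_p`,
`S(x) = ∑_{p ≤ x} a_p log p / p` (over the primes `p ∤ 2Δ`), `P(x) = ∏_{p ≤ x} N_p / p`, `r` the order of the
`L`-function at `s = 1`.

Kim and Murty: if `S(x) / log x` has a limit, then the Riemann hypothesis holds for the `L`-function of `E`, the
limit is `1/2 - r`, and the original asymptotic of Birch and Swinnerton-Dyer holds; under the Riemann hypothesis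
there are `x_n ∈ [2^n, 2^(n+1)]` with `S(x_n) / log x_n → 1/2 - r`. We show that in logarithmic mean all of this is
an EQUIVALENCE: the Riemann hypothesis holds for `E` if and only if `S(x) / log x` has a limit in logarithmic mean
(in mean absolute value or in mean square), and then the limit is `1/2 - r`; boundedness of the logarithmic mean of
`|S(x)| / log x` is enough. Under the Riemann hypothesis `|S(x) / log x - (1/2 - r)| ≥ ε` only on a set of finite
logarithmic measure, so that all but a small proportion of every `[2^n, 2^(n+1)]` consists of good `x`.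
-/

set_option autoImplicit false

namespace Pool.Agent.Results.MP_ad1693_nt.NagaoSums

open Filter Topology Classical MeasureTheory Set CongruenceSubgroup UpperHalfPlane
open scoped MatrixGroups

/-- `N_p`: the number of points of `y² = x³ + a x + b` modulo `p`, with the point at infinity. -/
noncomputable def numPoints (a b : ℤ) (p : ℕ) : ℕ :=
  Nat.card {q : ZMod p × ZMod p // q.2 ^ 2 = q.1 ^ 3 + (a : ZMod p) * q.1 + (b : ZMod p)} + 1

/-- `p` is a prime that does not divide `2 Δ`, where `Δ = -4 a³ - 27 b²`. -/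
def Good (a b : ℤ) (p : ℕ) : Prop :=
  p.Prime ∧ ¬ ((p : ℤ) ∣ 2 * (-4 * a ^ 3 - 27 * b ^ 2))

/-- The original product of Birch and Swinnerton-Dyer: `P(x) = ∏_{p ≤ x, p ∤ 2Δ} N_p / p`. -/
noncomputable def P (a b : ℤ) (x : ℝ) : ℝ :=
  ∏ p ∈ (Finset.range (⌊x⌋₊ + 1)).filter (Good a b), ((numPoints a b p : ℝ) / p)

/-- The sum of Nagao: `S(x) = ∑_{p ≤ x, p ∤ 2Δ} a_p log p / p`, `a_p = p + 1 - N_p`. -/
noncomputable def S (a b : ℤ) (x : ℝ) : ℝ :=
  ∑ p ∈ (Finset.range (⌊x⌋₊ + 1)).filter (Good a b), ((p : ℝ) + 1 - numPoints a b p) * Real.log p / p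

/-- `F` is an entire function which for `Re s > 3/2` is the incomplete `L`-series
`∏_{p ∤ 2Δ} (1 - a_p p^{-s} + p^{1-2s})⁻¹`, `a_p = p + 1 - N_p`, of `y² = x³ + a x + b`. -/
def IsLSeries (a b : ℤ) (F : ℂ → ℂ) : Prop :=
  Differentiable ℂ F ∧ ∀ s : ℂ, (3 : ℝ) / 2 < s.re →
    HasProd (fun p : ℕ => if Good a b p then
      (1 - ((p : ℂ) + 1 - (numPoints a b p : ℂ)) * (p : ℂ) ^ (-s) + (p : ℂ) ^ (1 - 2 * s))⁻¹ else 1)
      (F s)

/-- The `n`-th Fourier coefficient of `f`. -/
noncomputable def coef {N : ℕ} (f : CuspForm (Gamma0 N : Subgroup (GL (Fin 2) ℝ)) 2) (n : ℕ) : ℂ :=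
  (qExpansion 1 f).coeff n

/-- `f ∈ S_2(Γ₀(N))` is the newform of the elliptic curve `E : y² = x³ + a x + b` of conductor `N`: the
Fourier coefficients `c(n)` of `f` are real with `c(1) = 1`, they satisfy the Hecke relations
`c(mn) = c(m) c(n)` for coprime `m`, `n` and `c(p^(j+2)) = c(p) c(p^(j+1)) - p c(p^j)` (without the last
term if `p ∣ N`), `c(p) = a_p = p + 1 - N_p` for all primes `p ∤ 2Δ`, `|c(p)| ≤ 2 √p` for all
`p ∤ N` (Hasse) and `c(p) = 0, 1, -1` for `p ∣ N`. -/
structure IsNewformOf (a b : ℤ) (N : ℕ) (f : CuspForm (Gamma0 N : Subgroup (GL (Fin 2) ℝ)) 2) :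
    Prop where
  one : coef f 1 = 1
  real : ∀ n, (coef f n).im = 0
  mul : ∀ m n : ℕ, Nat.Coprime m n → coef f (m * n) = coef f m * coef f n
  pow : ∀ p j : ℕ, p.Prime → coef f (p ^ (j + 2)) = coef f p * coef f (p ^ (j + 1)) -
      (if p ∣ N then 0 else (p : ℂ) * coef f (p ^ j))
  points : ∀ p : ℕ, Good a b p → coef f p = (p : ℂ) + 1 - (numPoints a b p : ℂ)
  good : ∀ p : ℕ, p.Prime → ¬ p ∣ N → ‖coef f p‖ ≤ 2 * Real.sqrt p
  bad : ∀ p : ℕ, p.Prime → p ∣ N → coef f p = 0 ∨ coef f p = 1 ∨ coef f p = -1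

/-- The logarithmic mean `(log X)⁻¹ ∫_e^X |h(x)| dx / x` tends to `0`. -/
def MeanZero (h : ℝ → ℝ) : Prop :=
  Tendsto (fun X : ℝ => (∫ x in Real.exp 1..X, |h x| / x) / Real.log X) atTop (𝓝 0)

/-- The set of all `x ≥ e` with `|h(x)| ≥ ε` has finite logarithmic measure, for every `ε > 0`. -/
def SmallOutsideFinite (h : ℝ → ℝ) : Prop :=
  ∀ ε : ℝ, 0 < ε → IntegrableOn (fun x : ℝ => 1 / x) {x : ℝ | Real.exp 1 ≤ x ∧ ε ≤ |h x|}

/-! ### Translation to the definitions of the imported files -/

variable {a b : ℤ}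

theorem P_eq (x : ℝ) : P a b x = Pool.Agent.W263.BSD.bsdProduct a b x := by
  unfold P Pool.Agent.W263.BSD.bsdProduct numPoints Pool.Agent.W263.BSD.pointCount
  refine Finset.prod_congr rfl fun p _ => ?_
  push_cast
  rfl

theorem S_eq (x : ℝ) : S a b x = Pool.Agent.V11210.NG.pw (Pool.Agent.V11210.NG.nag a b) x := by
  unfold S Pool.Agent.V11210.NG.pw Pool.Agent.V11210.NG.ps Pool.Agent.V11210.NG.nag
  rw [Finset.sum_filter, Finset.range_eq_Ico]
  refine Finset.sum_congr ?_ fun n _ => ?_
  · ext n
    rw [Finset.mem_Ico, Finset.mem_Icc]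
    omega
  · show _ = Real.log (n : ℝ) * (if Pool.Agent.W263.BSD.GoodPrime a b n then
      ((n : ℝ) - Pool.Agent.W263.BSD.pointCount a b n) / n else 0)
    by_cases h : Good a b n
    · have h' : Pool.Agent.W263.BSD.GoodPrime a b n := h
      rw [if_pos h, if_pos h']
      unfold numPoints Pool.Agent.W263.BSD.pointCount
      push_cast
      ring
    · have h' : ¬ Pool.Agent.W263.BSD.GoodPrime a b n := h
      rw [if_neg h, if_neg h', mul_zero]

theorem numPoints_sub (p : ℕ) : (p : ℂ) + 1 - (numPoints a b p : ℂ) =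
    (p : ℂ) - (Pool.Agent.W263.BSD.pointCount a b p : ℂ) := by
  unfold numPoints Pool.Agent.W263.BSD.pointCount
  push_cast
  ring

theorem isLSeries {F : ℂ → ℂ} (hF : IsLSeries a b F) :
    Pool.Agent.W263.BSD.IsLSeries a b F := by
  refine ⟨hF.1, fun s hs => ?_⟩
  have h := hF.2 s hs
  simp only [numPoints_sub] at h
  exact h

theorem hecke {N : ℕ} {f : CuspForm (Gamma0 N : Subgroup (GL (Fin 2) ℝ)) 2}
    (hf : IsNewformOf a b N f) : Pool.Agent.TH941.Hecke f where
  one := hf.one
  real := hf.real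
  mul := hf.mul
  pow := hf.pow
  good := hf.good
  bad := fun p hp h => by
    rcases hf.bad p hp h with h1 | h1 | h1
    · have h2 : ‖coef f p‖ ≤ 1 := by rw [h1]; simp
      exact h2
    · have h2 : ‖coef f p‖ ≤ 1 := by rw [h1]; simp
      exact h2
    · have h2 : ‖coef f p‖ ≤ 1 := by rw [h1]; simp
      exact h2

open Pool.Agent.V11210.NG Pool.Agent.TH270.MS Pool.Agent.TH270.MS.EQ in
/-- **Theorem.** Let `E : y² = x³ + a x + b` be an elliptic curve over `ℚ` with newform `f` and (incomplete)
`L`-function `F`. There is `r = ord_{s=1} F`, and the following are EQUIVALENT: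
(1) `F` has no zeros with `Re s > 1` (by the functional equation: the Riemann hypothesis for `E`);
(2) `S(x) / log x - (1/2 - r)` tends to zero in logarithmic mean;
(3) its square tends to zero in logarithmic mean;
(4) for some real `c`, `S(x) / log x - c` tends to zero in logarithmic mean;
(5) the logarithmic mean of `|S(x)| / log x` is bounded;
(6) for some real `ρ` and `C > 0`, `log (P(x) / (C (log x)^ρ))` tends to zero in logarithmic mean.
In (4) necessarily `c = 1/2 - r`, and under (1) the function `S(x) / log x - (1/2 - r)` is `≥ ε` in absolute value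
only on a set of finite logarithmic measure, for every `ε > 0`. -/
theorem result (a b : ℤ) (hΔ : 4 * a ^ 3 + 27 * b ^ 2 ≠ 0) (F : ℂ → ℂ) (hF : IsLSeries a b F)
    (N : ℕ) [NeZero N] (f : CuspForm (Gamma0 N : Subgroup (GL (Fin 2) ℝ)) 2)
    (hf : IsNewformOf a b N f) :
    ∃ r : ℕ, analyticOrderAt F 1 = r ∧
      List.TFAE [
        ∀ s : ℂ, 1 < s.re → F s ≠ 0,
        MeanZero (fun x => S a b x / Real.log x - (1 / 2 - r)),
        MeanZero (fun x => (S a b x / Real.log x - (1 / 2 - r)) ^ 2),
        ∃ c : ℝ, MeanZero (fun x => S a b x / Real.log x - c),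
        ∃ B : ℝ, ∀ᶠ X : ℝ in atTop, ∫ x in Real.exp 1..X, |S a b x / Real.log x| / x ≤ B * Real.log X,
        ∃ ρ C : ℝ, 0 < C ∧ MeanZero (fun x => Real.log (P a b x / (C * Real.log x ^ ρ)))] ∧
      (∀ c : ℝ, MeanZero (fun x => S a b x / Real.log x - c) → c = 1 / 2 - r) ∧
      ((∀ s : ℂ, 1 < s.re → F s ≠ 0) →
        SmallOutsideFinite (fun x => S a b x / Real.log x - (1 / 2 - r))) := by
  have hF' := isLSeries hF
  obtain ⟨r, hr⟩ := Pool.Agent.W263.BSD.order_finite hF'
  have hb : Pool.Agent.TH941.Belongs a b f := fun p hp => (hf.points p hp).trans (numPoints_sub p)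
  have hrs : Tendsto (Pool.Agent.W263.BSD.rsSum a b) atTop (𝓝 0) := (hecke hf).rsSum_tendsto hΔ hb
  obtain ⟨C₀, κ, hg⟩ := growth_F hΔ hF' (hecke hf) hb
  have hη : (0 : ℝ) < 1 / 8 := by norm_num
  have hrel := rel hΔ (hecke hf) hb
  have hSli : LI fun x => S a b x / Real.log x := by
    have h := pw_li (nag a b)
    simpa only [← S_eq] using h
  have hRli : ∀ c : ℝ, LI fun x => S a b x / Real.log x - c := fun c Y hY =>
    (hSli Y hY).sub (LI.const c Y hY)
  have hRbm : ∀ c : ℝ, BM fun x => S a b x / Real.log x - c := fun c => by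
    have h := (pw_bm (nag a b)).sub (BM.const c)
    simpa only [← S_eq] using h
  -- the expansion
  have key : (∀ s : ℂ, 1 < s.re → F s ≠ 0) → ∃ (E : ℝ → ℝ) (q : ℝ), Measurable E ∧ BM E ∧
      IntegrableOn (fun y => E y ^ 2 / y) (Ioi (Real.exp 1)) ∧
      Tendsto (fun x => ps (bet a b) x - r * Real.log (Real.log x) - E x) atTop (𝓝 q) ∧
      Tendsto (fun x => (S a b x / Real.log x - (1 / 2 - r)) + E x) atTop (𝓝 0) := by
    intro hz
    obtain ⟨E, q, h1, h2, h3, h4⟩ := expansion hΔ hF' hrs hη hg hr hz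
    refine ⟨E, q, h1, h2, h3, h4, ?_⟩
    have h5 := (hrel.sub_const (1 / 2)).sub (fwd_core r h2 h3 h4)
    rw [sub_self, sub_zero] at h5
    refine h5.congr fun x => ?_
    rw [S_eq]
    ring
  -- bounded means
  have hbd : (∃ B : ℝ, ∀ᶠ X : ℝ in atTop, ∫ x in Real.exp 1..X, |S a b x / Real.log x| / x ≤ B * Real.log X) →
      ∀ s : ℂ, 1 < s.re → F s ≠ 0 := by
    intro h
    have h1 : ∃ M : ℝ, ∀ y : ℝ, Real.exp 1 ≤ y →
        |S a b y / Real.log y - -(pw (bet a b) y / Real.log y)| ≤ M := by
      obtain ⟨X₀, hX₀⟩ := (Metric.tendsto_atTop.1 hrel) 1 one_pos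
      obtain ⟨M₀, hM₀⟩ := ((pw_bm (nag a b)).add (pw_bm (bet a b))).2 X₀
      refine ⟨max M₀ 2, fun y hy => ?_⟩
      rw [S_eq, sub_neg_eq_add]
      rcases le_total y X₀ with h2 | h2
      · exact (hM₀ y hy h2).trans (le_max_left _ _)
      · refine le_trans ?_ (le_max_right _ _)
        have h3 := hX₀ y h2
        rw [Real.dist_eq] at h3
        have h4 := abs_lt.1 h3
        rw [← add_div, add_comm, abs_le]
        constructor <;> linarith
    obtain ⟨M, hM⟩ := h1
    have hbli : LI fun y => -(pw (bet a b) y / Real.log y) := fun Y hY => (pw_li (bet a b) Y hY).neg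
    obtain ⟨B', hB'⟩ := bmean_of hSli hbli hM h
    simp only [abs_neg] at hB'
    exact no_zeros hΔ hF' hrs hη hg hB'
  have hmb : ∀ c : ℝ, MeanZero (fun x => S a b x / Real.log x - c) →
      ∃ B : ℝ, ∀ᶠ X : ℝ in atTop, ∫ x in Real.exp 1..X, |S a b x / Real.log x| / x ≤ B * Real.log X := by
    intro c h
    refine bmean_of (f := fun x => S a b x / Real.log x - c) (M := |c|) (hRli c) hSli (fun y _ => ?_) ⟨1, ?_⟩
    · rw [sub_sub_cancel_left, abs_neg]
    · filter_upwards [(Metric.tendsto_nhds.1 h) 1 one_pos, eventually_ge_atTop (Real.exp 1)] with X h2 h3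
      have hl := one_le_log h3
      rw [Real.dist_eq, sub_zero] at h2
      have h4 := (le_abs_self _).trans h2.le
      rwa [div_le_iff₀ (by linarith)] at h4
  have h12 : (∀ s : ℂ, 1 < s.re → F s ≠ 0) → MeanZero (fun x => (S a b x / Real.log x - (1 / 2 - r)) ^ 2) := by
    intro hz
    obtain ⟨E, q, h1, h2, h3, -, h5⟩ := key hz
    have h6 : Tendsto (fun x => (S a b x / Real.log x - (1 / 2 - r)) - -E x) atTop (𝓝 0) := by
      simpa only [sub_neg_eq_add] using h5
    have h7 := sq_lmean (f := fun x => S a b x / Real.log x - (1 / 2 - r)) (g := fun x => -E x)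
      (hRbm _).sq.li (by simpa only [neg_sq] using h3) (((hRbm _).sub h2.neg).sq.li) h6
    unfold MeanZero
    have e : (fun X : ℝ => (∫ x in Real.exp 1..X, |(S a b x / Real.log x - (1 / 2 - r)) ^ 2| / x) / Real.log X) =
        lmean fun y => (S a b y / Real.log y - (1 / 2 - r)) ^ 2 := by
      funext X
      unfold lmean
      simp only [abs_sq]
    rw [e]
    exact h7
  have h23 : MeanZero (fun x => (S a b x / Real.log x - (1 / 2 - r)) ^ 2) →
      MeanZero (fun x => S a b x / Real.log x - (1 / 2 - r)) := by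
    intro h
    have e : (fun X : ℝ => (∫ x in Real.exp 1..X, |(S a b x / Real.log x - (1 / 2 - r)) ^ 2| / x) / Real.log X) =
        lmean fun y => (S a b y / Real.log y - (1 / 2 - r)) ^ 2 := by
      funext X
      unfold lmean
      simp only [abs_sq]
    unfold MeanZero at h
    rw [e] at h
    exact lmean_of_sq (hRli _) (hRbm _).sq.li h
  refine ⟨r, hr, ?_, ?_, ?_⟩
  · tfae_have 1 → 3 := h12
    tfae_have 3 → 2 := h23
    tfae_have 2 → 4 := fun h => ⟨_, h⟩
    tfae_have 4 → 5 := fun ⟨c, h⟩ => hmb c h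
    tfae_have 5 → 1 := hbd
    tfae_have 1 → 6 := by
      intro hz
      obtain ⟨E, q, h1, h2, h3, h4, -⟩ := key hz
      refine ⟨r, Real.exp q, Real.exp_pos q, ?_⟩
      have hlog : ∀ x : ℝ, Real.exp 1 ≤ x → Real.log (P a b x / (Real.exp q * Real.log x ^ (r : ℝ))) =
          ps (bet a b) x - r * Real.log (Real.log x) - q := by
        intro x hx
        have hl := one_le_log hx
        have hl0 : 0 < Real.log x := by linarith
        have hp : 0 < P a b x := by
          rw [P_eq]
          exact Pool.Agent.W263.BSD.bsdProduct_pos x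
        rw [Real.log_div hp.ne' (by positivity), Real.log_mul (Real.exp_pos q).ne' (by positivity), Real.log_exp,
          Real.log_rpow hl0, P_eq, log_prod_eq]
        ring
      have hbm : BM fun x => Real.log (P a b x / (Real.exp q * Real.log x ^ (r : ℝ))) := by
        have h5 : BM fun x => Real.log (Pool.Agent.W263.BSD.bsdProduct a b x) - r * Real.log (Real.log x) - q :=
          ((bm_product a b).sub ((BM.const _).mul BM.loglog)).sub (BM.const q)
        exact BM.congr h5 fun x hx => by rw [hlog x hx, log_prod_eq]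
      have h5 : Tendsto (fun x => Real.log (P a b x / (Real.exp q * Real.log x ^ (r : ℝ))) - E x) atTop (𝓝 0) := by
        have h6 := h4.sub_const q
        rw [sub_self] at h6
        refine h6.congr' ?_
        filter_upwards [eventually_ge_atTop (Real.exp 1)] with x hx
        rw [hlog x hx]
        ring
      exact (lmean_iff hbm.li h2.li h5).2 (sq_small h2 h3)
    tfae_have 6 → 1 := by
      rintro ⟨ρ, C, hC, h⟩
      have hlog : ∀ x : ℝ, Real.exp 1 ≤ x → Real.log (P a b x / (C * Real.log x ^ ρ)) =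
          Real.log (Pool.Agent.W263.BSD.bsdProduct a b x) - ρ * Real.log (Real.log x) - Real.log C := by
        intro x hx
        have hl := one_le_log hx
        have hl0 : 0 < Real.log x := by linarith
        have hp : 0 < P a b x := by
          rw [P_eq]
          exact Pool.Agent.W263.BSD.bsdProduct_pos x
        rw [Real.log_div hp.ne' (by positivity), Real.log_mul hC.ne' (by positivity), Real.log_rpow hl0, P_eq]
        ring
      have h5 : BM fun x => Real.log (Pool.Agent.W263.BSD.bsdProduct a b x) - ρ * Real.log (Real.log x) :=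
        (bm_product a b).sub ((BM.const _).mul BM.loglog)
      have hbm : BM fun x => Real.log (P a b x / (C * Real.log x ^ ρ)) :=
        BM.congr (h5.sub (BM.const (Real.log C))) fun x hx => (hlog x hx).symm
      refine ((curve_order hΔ hF' hrs hη hg ρ).2 ?_).1
      refine bmean_of (f := fun x => Real.log (P a b x / (C * Real.log x ^ ρ))) (M := |Real.log C|) hbm.li h5.li
        (fun y hy => ?_) ⟨1, ?_⟩
      · rw [hlog y hy, sub_sub_cancel_left, abs_neg]
      · filter_upwards [(Metric.tendsto_nhds.1 h) 1 one_pos, eventually_ge_atTop (Real.exp 1)] with X h2 h3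
        have hl := one_le_log h3
        rw [Real.dist_eq, sub_zero] at h2
        have h4 := (le_abs_self _).trans h2.le
        rwa [div_le_iff₀ (by linarith)] at h4
    tfae_finish
  · intro c hc
    have hz := hbd (hmb c hc)
    have h1 := h23 (h12 hz)
    by_contra hne
    have h2 : 0 < |c - (1 / 2 - r)| := abs_pos.2 (sub_ne_zero.2 hne)
    have h3 : Tendsto (fun X : ℝ => |c - (1 / 2 - r)| * ((Real.log X - 1) / Real.log X)) atTop
        (𝓝 (|c - (1 / 2 - r)| * 1)) := by
      refine Tendsto.const_mul _ ?_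
      have h4 : Tendsto (fun X : ℝ => 1 - 1 / Real.log X) atTop (𝓝 (1 - 0)) := (div_log 1).const_sub 1
      rw [sub_zero] at h4
      refine h4.congr' ?_
      filter_upwards [eventually_ge_atTop (Real.exp 1)] with X hX
      have hl := one_le_log hX
      field_simp
    have h4 := h1.add hc
    rw [add_zero] at h4
    have h5 := le_of_tendsto_of_tendsto h3 h4 (by
      filter_upwards [eventually_ge_atTop (Real.exp 1)] with X hX
      have hl := one_le_log hX
      rw [← add_div, ← mul_div_assoc]
      refine div_le_div_of_nonneg_right ?_ (by linarith)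
      rw [← int_inv hX, ← intervalIntegral.integral_const_mul,
        ← intervalIntegral.integral_add ((hRli _).abs.div X hX) ((hRli c).abs.div X hX)]
      refine intervalIntegral.integral_mono_on hX (((LI.const 1).div X hX).const_mul _)
        (((hRli _).abs.div X hX).add ((hRli c).abs.div X hX)) fun y hy => ?_
      have hy0 : 0 < y := (Real.exp_pos 1).trans_le hy.1
      rw [mul_one_div, ← add_div]
      refine div_le_div_of_nonneg_right ?_ hy0.le
      have e1 : c - (1 / 2 - r) = (S a b y / Real.log y - (1 / 2 - r)) - (S a b y / Real.log y - c) := by ring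
      rw [e1]
      exact abs_sub _ _)
    linarith
  · intro hz ε hε
    obtain ⟨E, q, h1, h2, h3, -, h5⟩ := key hz
    exact fin_meas h1 h3 h5 hε

end Pool.Agent.Results.MP_ad1693_nt.NagaoSums
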