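import Pool.Agent.V11333.Cone8
import Pool.Agent.V11333.Cone11

/-!
# Upper bounds for the smoothed products of Birch and Swinnerton-Dyer give their exact order

Let `E : y² = x³ + a x + b` be an elliptic curve over a number field `K` (in the problem: `K = ℚ`),
`a, b ∈ 𝓞_K`, and let `L(E, s)` be its `L`-function, without the Euler factors at the primes `v` dividing
`6 (4 a³ + 27 b²)`. The only hypothesis is that `L(E, s)` has a continuation `F` along the REAL axis to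
`s ≥ 1`, analytic at the real points (over `ℚ` the entire continuation is known). Let `r` be the order of `F`
at `s = 1`. The sharp cut-off in the products `∏_{q_v < x} #E(k_v)/q_v` of the question is replaced by the
weights `w_ρ(u) = (1/2πi) ∫ exp(z - u z^{1/ρ}) dz/z`, `ρ > 1`, `w_ρ(0) = 1`, which decay so fast that the products

`P_ρ(Y) = ∏_v (#E(k_v)/q_v)^{w_ρ(log q_v / log Y)}`

are up to bounded factors finite products over `q_v ≤ exp ((log Y)^{ρ'})`, for any `ρ' > ρ`. It is shown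
that the following are EQUIVALENT:

* `L(E, s)` has a holomorphic continuation WITHOUT ZEROS to the half plane `Re s > 1` (over `ℚ`: the Riemann
  hypothesis for `L(E, s)`);
* the products have at most logarithmic growth: for some real `t`, `P_ρ(Y) ≤ C_ρ (log Y)^t` for large `Y`,
  for all `ρ > 1`;
* the products have the conjectured order: `C_ρ⁻¹ (log Y)^r ≤ P_ρ(Y) ≤ C_ρ (log Y)^r` for large `Y`, for
  all `ρ > 1`;

and that the upper bound holds for an exponent `t` only if `t ≥ r`. So UPPER bounds by ANY power of `log Y`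
imply LOWER bounds by a power of `log Y`, both with the analytic rank as the exponent; and if
`C⁻¹ (log Y)^t ≤ P_ρ(Y) ≤ C (log Y)^t` for all `ρ > 1` with some real `t`, then `t = r`.
-/

set_option autoImplicit false

namespace Pool.Agent.Results.MP_ad1693_nt.UpperBoundsGiveOrder

open Filter Topology Set NumberField IsDedekindDomain

variable {K : Type} [Field K] [NumberField K]

/-- The norm of `v`. -/
noncomputable def nrm (v : HeightOneSpectrum (𝓞 K)) : ℕ := Ideal.absNorm v.asIdeal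

/-- `v` does not divide `6 (4 a³ + 27 b²)`. -/
def Good (a b : 𝓞 K) (v : HeightOneSpectrum (𝓞 K)) : Prop :=
  6 * (4 * a ^ 3 + 27 * b ^ 2) ∉ v.asIdeal

/-- The number `N_v` of affine points of `y² = x³ + a x + b` modulo `v`; `#E(k_v) = N_v + 1`. -/
noncomputable def pts (a b : 𝓞 K) (v : HeightOneSpectrum (𝓞 K)) : ℕ :=
  Nat.card {P : (𝓞 K ⧸ v.asIdeal) × (𝓞 K ⧸ v.asIdeal) //
    P.2 ^ 2 = P.1 ^ 3 + Ideal.Quotient.mk v.asIdeal a * P.1 + Ideal.Quotient.mk v.asIdeal b}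

/-- The Euler factor `(1 - a_v q_v^{-s} + q_v^{1 - 2s})⁻¹`, `a_v = q_v - N_v`. -/
noncomputable def factor (a b : 𝓞 K) (v : HeightOneSpectrum (𝓞 K)) (s : ℂ) : ℂ :=
  (1 - ((nrm v : ℂ) - pts a b v) * (nrm v : ℂ) ^ (-s) + (nrm v : ℂ) ^ (1 - 2 * s))⁻¹

/-- `F` is a continuation of `L(E, s)` along the real axis: analytic at all real `x ≥ 1`, and equal to
the Euler product for real `x > 3/2`. -/
def IsRealContinuation (a b : 𝓞 K) (F : ℂ → ℂ) : Prop :=
  (∀ x : ℝ, 1 ≤ x → AnalyticAt ℂ F x) ∧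
    ∀ x : ℝ, 3 / 2 < x → HasProd (fun v : {v // Good a b v} => factor a b v.1 x) (F x)

/-- `L(E, s)` has a holomorphic continuation `G` without zeros to the half plane `Re s > 1`. -/
def ZeroFree (a b : 𝓞 K) : Prop :=
  ∃ G : ℂ → ℂ, (∀ s : ℂ, 1 < s.re → DifferentiableAt ℂ G s ∧ G s ≠ 0) ∧
    ∀ s : ℂ, 3 / 2 < s.re → HasProd (fun v : {v // Good a b v} => factor a b v.1 s) (G s)

/-- The weight `w_ρ(u) = (1/2πi) ∫_{Re z = 1} exp(z - u z^{1/ρ}) dz/z`. -/
noncomputable def weight (ρ u : ℝ) : ℝ :=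
  (2 * Real.pi)⁻¹ * ∫ t : ℝ, (Complex.exp ((1 + t * Complex.I) -
    u * (1 + t * Complex.I) ^ ((ρ⁻¹ : ℝ) : ℂ)) / (1 + t * Complex.I)).re

/-- The logarithm of the smoothed product `P_ρ(Y)`: the sum of
`w_ρ(log q_v / log Y) log (#E(k_v) / q_v)` over the good primes with `q_v ≤ exp ((log Y)^{ρ'})`. -/
noncomputable def logProduct (a b : 𝓞 K) (ρ ρ' Y : ℝ) : ℝ :=
  ∑ᶠ (v : {v // Good a b v}) (_ : (nrm v.1 : ℝ) ≤ Real.exp (Real.log Y ^ ρ')),
    weight ρ (Real.log (nrm v.1) / Real.log Y) * Real.log (((pts a b v.1 : ℝ) + 1) / nrm v.1)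

/-- `P_ρ(Y) ≤ e^C (log Y)^t` for large `Y`, for all `ρ' > ρ > 1` (with `C` depending on `ρ`, `ρ'`). -/
def UpperBounds (a b : 𝓞 K) (t : ℝ) : Prop :=
  ∀ ρ ρ' : ℝ, 1 < ρ → ρ < ρ' → ∃ C : ℝ, ∀ᶠ Y : ℝ in atTop,
    logProduct a b ρ ρ' Y ≤ t * Real.log (Real.log Y) + C

/-- `C⁻¹ (log Y)^t ≤ P_ρ(Y) ≤ C (log Y)^t` for large `Y`, for all `ρ' > ρ > 1` (with `C` depending on `ρ`,
`ρ'`). -/
def ExactOrder (a b : 𝓞 K) (t : ℝ) : Prop :=
  ∀ ρ ρ' : ℝ, 1 < ρ → ρ < ρ' → ∃ C : ℝ, ∀ᶠ Y : ℝ in atTop,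
    |logProduct a b ρ ρ' Y - t * Real.log (Real.log Y)| ≤ C

open Pool.Agent.TH942.ES
open Pool.Agent.V11333

theorem mean_eq (a b : 𝓞 K) (ρ ρ' Y : ℝ) : logProduct a b ρ ρ' Y =
    SrE (fun v : {v // GoodV a b v} => Pool.Agent.H921R2.TatePole.nm v.1) (alV a b) ρ ρ' Y := by
  unfold logProduct SrE
  refine finsum_congr fun v => finsum_congr fun _ => ?_
  rw [curve_cv]
  rfl

theorem prod_eq (a b : 𝓞 K) (s : ℂ) :
    (fun v : {v // Good a b v} => factor a b v.1 (1 + s)) = fun v : {v // GoodV a b v} =>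
      ∏ i, (1 - zv (fun v : {v // GoodV a b v} => Pool.Agent.H921R2.TatePole.nm v.1) (alV a b) v i *
        xv (fun v : {v // GoodV a b v} => Pool.Agent.H921R2.TatePole.nm v.1) v s)⁻¹ := by
  funext v
  rw [curve_factor]
  rfl

theorem hasProd_iff (a b : 𝓞 K) {s : ℂ} (hs : 1 / 2 < s.re) (y : ℂ) :
    HasProd (fun v : {v // Good a b v} => factor a b v.1 (1 + s)) y ↔
      y = LE (fun v : {v // GoodV a b v} => Pool.Agent.H921R2.TatePole.nm v.1) (alV a b) s := by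
  have h2 := (curve_sys a b).hasProd hs
  rw [prod_eq a b s]
  constructor
  · intro h
    exact h.tprod_eq.symm
  · rintro rfl
    unfold Pool.Agent.TH942.ES.LE
    rw [h2.tprod_eq]
    exact h2

theorem zero_iff (a b : 𝓞 K) : ZeroFree a b ↔
    ∃ G : ℂ → ℂ, (∀ s : ℂ, 0 < s.re → DifferentiableAt ℂ G s ∧ G s ≠ 0) ∧
      ∀ s : ℂ, 1 / 2 < s.re → G s =
        LE (fun v : {v // GoodV a b v} => Pool.Agent.H921R2.TatePole.nm v.1) (alV a b) s := by
  constructor
  · rintro ⟨G, g1, g2⟩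
    refine ⟨fun s => G (1 + s), fun s hs => ?_, fun s hs => ?_⟩
    · have h4 := g1 (1 + s) (by rw [Complex.add_re, Complex.one_re]; linarith)
      exact ⟨h4.1.comp s (by fun_prop), h4.2⟩
    · exact (hasProd_iff a b hs _).1 (g2 (1 + s) (by
        rw [Complex.add_re, Complex.one_re]
        linarith))
  · rintro ⟨G, g1, g2⟩
    refine ⟨fun s => G (s - 1), fun s hs => ?_, fun s hs => ?_⟩
    · have h4 := g1 (s - 1) (by rw [Complex.sub_re, Complex.one_re]; linarith)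
      exact ⟨h4.1.comp s (by fun_prop), h4.2⟩
    · have h5 : 1 / 2 < (s - 1).re := by
        rw [Complex.sub_re, Complex.one_re]
        linarith
      have h6 := (hasProd_iff a b h5 (G (s - 1))).2 (g2 _ h5)
      rwa [add_sub_cancel] at h6

/-- the main step -/
theorem law {a b : 𝓞 K} {F : ℂ → ℂ} (hF : IsRealContinuation a b F) (t : ℝ) :
    UpperBounds a b t ↔ (∃ m : ℕ, analyticOrderAt F 1 = m ∧ (m : ℝ) ≤ t) ∧ ZeroFree a b := by
  have hF1 : AnalyticAt ℂ F ((1 : ℝ) : ℂ) := hF.1 1 le_rfl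
  have h1 := Cone.order_upper_primes (curve_sys a b) (H := fun s => F (s + ((1 : ℝ) : ℂ)))
    (fun x hx => CP.an_shift (c := 0) (hF.1 _ (by linarith)))
    (fun x hx => by
      have h4 := hF.2 (1 + x) (by linarith)
      have h5 : (((1 + x : ℝ)) : ℂ) = 1 + (x : ℂ) := by push_cast; rfl
      rw [h5] at h4
      have h6 := (hasProd_iff a b (s := (x : ℂ)) (by rwa [Complex.ofReal_re]) _).1 h4
      rw [Complex.ofReal_one, add_comm]
      exact h6) t
  rw [CP.order_shift hF1, Complex.ofReal_one, ← zero_iff] at h1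
  rw [← h1]
  unfold UpperBounds
  simp only [mean_eq]

/-- the order is finite -/
theorem order_finite {a b : 𝓞 K} {F : ℂ → ℂ} (hF : IsRealContinuation a b F) (hz : ZeroFree a b) :
    ∃ m : ℕ, analyticOrderAt F 1 = m := by
  have h1 := law hF
  by_contra h
  have h2 : analyticOrderAt F 1 = ⊤ := by
    by_contra h3
    exact h ⟨(analyticOrderAt F 1).toNat, (ENat.natCast_toNat h3).symm⟩
  -- `F` vanishes near `1`, hence on the real axis
  have h4 : ∀ᶠ s in 𝓝 (1 : ℂ), F s = 0 := analyticOrderAt_eq_top.1 h2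
  have h5 : ∀ᶠ x in 𝓝 (1 : ℝ), F ((x : ℝ) : ℂ) = 0 := by
    have hT : Tendsto (fun x : ℝ => (x : ℂ)) (𝓝 1) (𝓝 1) := by
      have := Complex.continuous_ofReal.tendsto (1 : ℝ)
      rwa [Complex.ofReal_one] at this
    exact hT.eventually h4
  have a1 : AnalyticOnNhd ℝ (fun x : ℝ => F x) (Ici 1) := fun x hx =>
    Pool.Agent.V11333.OneSide.an_ofReal (hF.1 x hx)
  have a2 : AnalyticOnNhd ℝ (fun _ : ℝ => (0 : ℂ)) (Ici 1) := fun x _ => analyticAt_const
  have a3 := a1.eqOn_of_preconnected_of_eventuallyEq a2 isPreconnected_Ici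
    (Set.mem_Ici.2 (le_refl (1 : ℝ))) h5
  have h6 : F ((2 : ℝ) : ℂ) = 0 := a3 (Set.mem_Ici.2 (by norm_num))
  obtain ⟨G, g1, g2⟩ := hz
  have h7 := g2 ((2 : ℝ) : ℂ) (by rw [Complex.ofReal_re]; norm_num)
  have h8 := hF.2 2 (by norm_num)
  have h9 : G ((2 : ℝ) : ℂ) = F ((2 : ℝ) : ℂ) := h7.unique h8
  exact (g1 ((2 : ℝ) : ℂ) (by rw [Complex.ofReal_re]; norm_num)).2 (h9.trans h6)

/-- the two-sided law -/
theorem exact_of {a b : 𝓞 K} {F : ℂ → ℂ} (hF : IsRealContinuation a b F) (hz : ZeroFree a b) {m : ℕ}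
    (hm : analyticOrderAt F 1 = m) : ExactOrder a b m := by
  intro ρ ρ' hρ hρ'
  obtain ⟨G, g1, g2⟩ := (zero_iff a b).1 hz
  have hF1 : AnalyticAt ℂ F ((1 : ℝ) : ℂ) := hF.1 1 le_rfl
  have h1 := Cone.law_primes (curve_sys a b) (H := fun s => F (s + ((1 : ℝ) : ℂ)))
    (fun x hx => CP.an_shift (c := 0) (hF.1 _ (by linarith)))
    (fun x hx => by
      have h4 := hF.2 (1 + x) (by linarith)
      have h5 : (((1 + x : ℝ)) : ℂ) = 1 + (x : ℂ) := by push_cast; rfl
      rw [h5] at h4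
      have h6 := (hasProd_iff a b (s := (x : ℂ)) (by rwa [Complex.ofReal_re]) _).1 h4
      rw [Complex.ofReal_one, add_comm]
      exact h6) (m := m) (by rw [CP.order_shift hF1, Complex.ofReal_one, hm]) g1 g2 hρ hρ'
  simpa only [mean_eq] using h1

theorem upper_of {a b : 𝓞 K} {t : ℝ} (h : ExactOrder a b t) : UpperBounds a b t := by
  intro ρ ρ' hρ hρ'
  obtain ⟨C, hC⟩ := h ρ ρ' hρ hρ'
  refine ⟨C, hC.mono fun Y hY => ?_⟩
  have := (abs_le.1 hY).2
  linarith

theorem unique {a b : 𝓞 K} {t u : ℝ} (h : ExactOrder a b t) (h' : ExactOrder a b u) : t = u := by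
  obtain ⟨C, hC⟩ := h 2 3 (by norm_num) (by norm_num)
  obtain ⟨D, hD⟩ := h' 2 3 (by norm_num) (by norm_num)
  by_contra hne
  have h3 : 0 < |t - u| := abs_pos.2 (sub_ne_zero.2 hne)
  have hT : Tendsto (fun X : ℝ => Real.log (Real.log X)) atTop atTop :=
    Real.tendsto_log_atTop.comp Real.tendsto_log_atTop
  obtain ⟨Y, hY1, hY2, hY3, hY4⟩ := (hC.and (hD.and
    ((hT.eventually_gt_atTop ((C + D) / |t - u|)).and (hT.eventually_gt_atTop 0)))).exists
  have e1 : (t - u) * Real.log (Real.log Y) = (logProduct a b 2 3 Y - u * Real.log (Real.log Y)) -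
      (logProduct a b 2 3 Y - t * Real.log (Real.log Y)) := by ring
  have e2 : |(t - u) * Real.log (Real.log Y)| ≤ D + C := by
    rw [e1]
    exact (abs_sub _ _).trans (add_le_add hY2 hY1)
  rw [abs_mul, abs_of_pos hY4] at e2
  rw [div_lt_iff₀ h3] at hY3
  linarith

/-- **Theorem.** Let `K` be a number field, `a, b ∈ 𝓞_K`, `E : y² = x³ + a x + b`, and let `F` be a
continuation of `L(E, s)` along the real axis which is analytic at all real `s ≥ 1`.

(1) The following are equivalent: `L(E, s)` has a holomorphic continuation without zeros to `Re s > 1`; for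
some real `t`, `P_ρ(Y) ≤ C (log Y)^t` for large `Y`, for all `ρ' > ρ > 1`; the order `r` of `F` at `1` is finite and
`C⁻¹ (log Y)^r ≤ P_ρ(Y) ≤ C (log Y)^r` for large `Y`, for all `ρ' > ρ > 1`.

(2) For real `t` the upper bounds of (1) hold if and only if the two-sided bounds of (1) hold and `r ≤ t`.

(3) For real `t`: `C⁻¹ (log Y)^t ≤ P_ρ(Y) ≤ C (log Y)^t` for large `Y`, for all `ρ' > ρ > 1`, if and only if `t = r`
and `L(E, s)` has the continuation of (1). -/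
theorem result (a b : 𝓞 K) (F : ℂ → ℂ) (hF : IsRealContinuation a b F) :
    (ZeroFree a b ↔ ∃ t : ℝ, UpperBounds a b t) ∧
    (ZeroFree a b ↔ ∃ r : ℕ, analyticOrderAt F 1 = r ∧ ExactOrder a b r) ∧
    (∀ t : ℝ, UpperBounds a b t ↔
      ∃ r : ℕ, analyticOrderAt F 1 = r ∧ (r : ℝ) ≤ t ∧ ExactOrder a b r) ∧
    (∀ t : ℝ, ExactOrder a b t ↔
      (∃ r : ℕ, analyticOrderAt F 1 = r ∧ t = r) ∧ ZeroFree a b) := by
  have k1 : ZeroFree a b → ∃ r : ℕ, analyticOrderAt F 1 = r ∧ ExactOrder a b r := fun hz => by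
    obtain ⟨m, hm⟩ := order_finite hF hz
    exact ⟨m, hm, exact_of hF hz hm⟩
  have k2 : ∀ t : ℝ, UpperBounds a b t → ZeroFree a b := fun t h => ((law hF t).1 h).2
  refine ⟨⟨fun hz => ?_, ?_⟩, ⟨k1, ?_⟩, fun t => ⟨fun h => ?_, ?_⟩, fun t => ⟨fun h => ?_, ?_⟩⟩
  · obtain ⟨m, -, h⟩ := k1 hz
    exact ⟨m, upper_of h⟩
  · rintro ⟨t, h⟩
    exact k2 t h
  · rintro ⟨m, -, h⟩
    exact k2 _ (upper_of h)
  · obtain ⟨⟨m, h1, h2⟩, hz⟩ := (law hF t).1 h
    exact ⟨m, h1, h2, exact_of hF hz h1⟩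
  · rintro ⟨m, h1, h2, h3⟩
    exact (law hF t).2 ⟨⟨m, h1, h2⟩, k2 _ (upper_of h3)⟩
  · have hz := k2 _ (upper_of h)
    obtain ⟨m, hm, h1⟩ := k1 hz
    exact ⟨⟨m, hm, unique h h1⟩, hz⟩
  · rintro ⟨⟨m, hm, rfl⟩, hz⟩
    exact exact_of hF hz hm

end Pool.Agent.Results.MP_ad1693_nt.UpperBoundsGiveOrder
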